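import Mathlib
import Pool.Agent.H32.AKTypical
import Pool.Agent.H90.AK.Exponent2

/-!
# Tubes with separated directions: union and typical multiplicity in every dimension
-/

set_option autoImplicit false

open MeasureTheory Set

namespace Pool.Agent.Results.MP_850839_an.ArithmeticUnionBound

open Pool.Agent.H32.AKT

/-- For every dimension `n = d + 1 ≥ 2` there is `κ > 0` and for every `η > 0` a constant `C` such
that for every family of `N` tubes of length `1` and radius `δ` in `ℝ^n` with `δ`-separated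
orientations and arbitrary positions there is a measurable set `G` with the following properties.
At least `(1 - η) N` of the tubes have a part of measure at least `κ δ^(n-1)` in `G`; at most
`C N^0.4026` of the tubes pass through each point of `G`; the inequality of the Kakeya conjecture
holds on `G` for all `q ≥ 1 + 1.6738 / (n - 1)`. Moreover the union of the tubes has measure at
least `C⁻¹ δ^(n-1) N^0.5974`. -/
theorem result (d : ℕ) (hd : 1 ≤ d) :
    ∃ κ > 0, ∀ η > 0, ∃ C > 0, ∀ (N : ℕ) (δ : ℝ) (c e : Fin N → EuclideanSpace ℝ (Fin (d + 1))),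
      0 < δ → δ < 1 → (∀ i, ‖e i‖ = 1) → (∀ i i', i ≠ i' → δ ≤ ‖e i - e i'‖) →
      ∃ G : Set (EuclideanSpace ℝ (Fin (d + 1))), MeasurableSet G ∧
        (1 - η) * N ≤ (({i | ENNReal.ofReal (κ * δ ^ d) ≤
          volume (tube δ (c i) (e i) ∩ G)} : Set (Fin N)).ncard : ℝ) ∧
        (∀ x ∈ G, ∑ i, (tube δ (c i) (e i)).indicator (fun _ => (1 : ℝ)) x ≤
          C * (N : ℝ) ^ (0.4026 : ℝ)) ∧
        (∀ q : ℝ, 1 + 1.6738 / d ≤ q →
          eLpNorm (G.indicator fun x => ∑ i, (tube δ (c i) (e i)).indicator (fun _ => (1 : ℝ)) x)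
            (ENNReal.ofReal q) volume ≤
          ENNReal.ofReal (C * δ ^ ((d : ℝ) / q) * (N : ℝ) ^ (1 - 1 / (q * d)))) ∧
        ENNReal.ofReal (C⁻¹ * δ ^ d * (N : ℝ) ^ (0.5974 : ℝ)) ≤
          volume (⋃ i, tube δ (c i) (e i)) := by
  obtain ⟨a, ha, hg⟩ := Pool.Agent.H90.AK.exists_good2
  obtain ⟨S, hS, h⟩ := Pool.Agent.H90.AK.slopes_of_good hg ha
  obtain ⟨κ, hκ, H⟩ := typical (α := 167377 / 100000) (a' := 1.6738) (by norm_num) (by norm_num)
    hS (fun A => by rw [one_mul]; exact h A) d hd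
  refine ⟨κ, hκ, fun η hη => ?_⟩
  obtain ⟨C, hC, H⟩ := H η hη
  refine ⟨C, hC, fun N δ c e hδ hδ1 he hsep => ?_⟩
  obtain ⟨G, hG, h1, h2, h3, h4⟩ := H N δ c e hδ hδ1 he hsep
  refine ⟨G, hG, h1, fun x hx => ?_, h3, le_trans (ENNReal.ofReal_le_ofReal ?_) h4⟩
  · rcases Nat.eq_zero_or_pos N with h0 | h0
    · subst h0
      simp only [Finset.univ_eq_empty, Finset.sum_empty, Nat.cast_zero]
      positivity
    · refine (h2 x hx).trans ?_
      have : (N : ℝ) ^ (1 - 1 / (167377 / 100000) : ℝ) ≤ (N : ℝ) ^ (0.4026 : ℝ) :=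
        Real.rpow_le_rpow_of_exponent_le (by exact_mod_cast h0) (by norm_num)
      gcongr
  · have : (N : ℝ) ^ (0.5974 : ℝ) ≤ (N : ℝ) ^ (1 / (167377 / 100000) : ℝ) := by
      rcases Nat.eq_zero_or_pos N with h0 | h0
      · rw [h0, Nat.cast_zero, Real.zero_rpow (by norm_num), Real.zero_rpow (by norm_num)]
      · exact Real.rpow_le_rpow_of_exponent_le (by exact_mod_cast h0) (by norm_num)
    gcongr

end Pool.Agent.Results.MP_850839_an.ArithmeticUnionBound
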